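import Mathlib
import Pool.Agent.R863.Kum.FGL2

/-!
# Wild Kummer singularities have embedding dimension `2 ^ g - 1`

Let `k` be a perfect field of characteristic two and `R = k[[X_1, …, X_g]]`. If `σ` is an
involution of the `k`-algebra `R` that is the identity on `m/m²` and whose fixed ideal
`(σ f - f : f ∈ R)` is `m`-primary, then the ring of invariants `R^σ` has embedding dimension
`2 ^ g - 1`. A minimal set of generators of its maximal ideal is given by the norms
`n_i = X_i σ(X_i)` and the traces `x_S + σ(x_S)`, `x_S = ∏_{i ∈ S} X_i`, `|S| ≥ 2`.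

In particular this holds for the inversion of every `g`-dimensional formal group law for which
multiplication by two is an isogeny, hence for the inversion on the completed local ring of an
abelian variety at a point of order at most two.
-/

set_option autoImplicit false

open MvPowerSeries IsLocalRing R863K

namespace Pool.Agent.Results.MP_cd71ec_ag.WildKummer

/-- **Embedding dimension of wild Kummer singularities.** -/
theorem result (k : Type*) [Field k] [PerfectField k] [CharP k 2] (g : ℕ) :
    (∀ G : FormalGroupLaw k g, G.TwoIsIsogeny →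
      HasEmbeddingDimension (AlgHom.equalizer G.inversion (AlgHom.id k _)) (2 ^ g - 1)) ∧
    (∀ σ : MvPowerSeries (Fin g) k →ₐ[k] MvPowerSeries (Fin g) k, (∀ f, σ (σ f) = f) →
      (∀ f ∈ maximalIdeal (MvPowerSeries (Fin g) k),
        σ f - f ∈ maximalIdeal (MvPowerSeries (Fin g) k) ^ 2) →
      (∃ n : ℕ, maximalIdeal (MvPowerSeries (Fin g) k) ^ n ≤
        Ideal.span (Set.range fun f => σ f - f)) →
      HasEmbeddingDimension (AlgHom.equalizer σ (AlgHom.id k _)) (2 ^ g - 1)) := by
  have : ExpChar k 2 := inferInstance
  have : PerfectRing k 2 := inferInstance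
  exact ⟨fun G hG => (G.isInv hG).hasEmb, fun σ h1 h2 h3 => (Inv.of_hyp h1 h2 h3).hasEmb⟩

end Pool.Agent.Results.MP_cd71ec_ag.WildKummer
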